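import Pool.Agent.Y586.OD.Asm
import Pool.Agent.H547S1.Cls
import Pool.Agent.Y195.OD.NA
import Pool.Agent.Y658.OD.Nc
import Pool.Agent.Y925.OD.Pos

/-!
# Public-key encryption with decryption over a gate set: the dichotomy
-/

set_option autoImplicit false

namespace Pool.Agent.Y586.OD

open Pool.Agent.H547R6 Pool.Agent.H547R7 Pool.Agent.H547R8 Pool.Agent.NPC Pool.Agent.H547S1

theorem hck : S_CK3 := t_CK3 (H547R8.t_CKT H547R8.t_LAY)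

theorem hsli : S_SLI := H547R7.t_SLI H547R7.t_THR

theorem cls_dec (B : Set BFun) : PkeDec B ↔ ¬ (B ⊆ Aff ∨ B ⊆ Conj ∨ B ⊆ Disj) ∧ PKE :=
  dec_main t_C5 Y925.OD.t_DT (Y925.OD.t_DC hck t_GDM hsli) Y925.OD.t_DS
    (Y195.OD.t_DNA t_NEG t_GL3 t_LN1 t_LN2) (Y658.OD.t_DNC Y195.OD.t_EXC)
    (Y658.OD.t_DND Y195.OD.t_EXC) B

end Pool.Agent.Y586.OD
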