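import Pool.Agent.Y586.OD.Defs
import Pool.Agent.H547S1.Asm

/-!
# Public-key encryption with decryption over a gate set: assembly
-/

set_option autoImplicit false

namespace Pool.Agent.Y586.OD

open Pool.Agent.H547R6 Pool.Agent.H547R7 Pool.Agent.H547R8 Pool.Agent.NPC Pool.Agent.H547S1

theorem dec_main (h5 : S_C5) (hT : S_DT) (hC : S_DC) (hS : S_DS) (hA : S_DNA) (hCo : S_DNC)
    (hDi : S_DND) (B : Set BFun) :
    PkeDec B ↔ ¬ (B ⊆ Aff ∨ B ⊆ Conj ∨ B ⊆ Disj) ∧ PKE := by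
  constructor
  · rintro ⟨S, hP, hB⟩
    refine ⟨?_, S, hP⟩
    rintro (h | h | h)
    · exact hA B S h hP hB
    · exact hCo B S h hP hB
    · exact hDi B S h hP hB
  · rintro ⟨hB, S, hP⟩
    obtain ⟨⟨q1, q2, q3, q4⟩, -⟩ := id hP
    obtain ⟨τ, hτ⟩ := h5 B (fun h => hB (Or.inl h)) (fun h => hB (Or.inr (Or.inl h)))
      (fun h => hB (Or.inr (Or.inr h)))
    obtain ⟨encB, decB, he, hd, hsp⟩ := hT τ S q3 q4
    exact ⟨_, hS τ S encB decB he hd hsp hP, hC B τ S encB decB hτ q2 q4 hsp⟩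

end Pool.Agent.Y586.OD
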