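import Pool.Agent.H547S1.Stm

/-!
# Public-key encryption with decryption over a gate set: definitions, statements of the tasks
-/

set_option autoImplicit false

namespace Pool.Agent.Y586.OD

open Pool.Agent.H547R6 Pool.Agent.H547R7 Pool.Agent.H547R8 Pool.Agent.NPC Pool.Agent.H547S1

/-- The decryption of `S` is over `B`: for each secret key of the key generation, the function that
tells whether a ciphertext is decrypted to `1` is computed by a circuit over `B` of size
polynomial in `n`. -/
def DecOver (B : Set BFun) (S : Scheme) : Prop :=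
  ∃ q : Polynomial ℕ, ∀ n, 1 ≤ n → ∀ s : List Bool, s.length = S.g.eval n →
    Computes B (S.len.eval n) (q.eval n) fun z =>
      decide (S.dec (c3 (ones n) (S.sk (pairBits (ones n) s)) (List.ofFn z)) = [true])

/-- There is a public-key encryption scheme with decryption over `B`. -/
def PkeDec (B : Set BFun) : Prop := ∃ S, IsPke S ∧ DecOver B S

/-- the value of the decryption if exactly half of the bits of the ciphertext are ones -/
noncomputable def slD (S : Scheme) (n : ℕ) (sk v : List Bool) : Bool :=
  if S.len.eval n < v.count true then true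
  else if v.count true = S.len.eval n then
    decide (S.dec (c3 (ones n) sk (v.take (S.len.eval n))) = [true])
  else false

/-- the decryption of the new scheme; ciphertexts `c ++ cpl c ++ [false, true]` -/
noncomputable def decD (τ : Fin 3) (S : Scheme) (n : ℕ) (sk u : List Bool) : Bool :=
  Tf τ (u.getD (2 * S.len.eval n) false) (u.getD (2 * S.len.eval n + 1) false)
    (slD S n sk (u.take (2 * S.len.eval n))) (slD S n sk (cpl (u.take (2 * S.len.eval n))))

/-- the new scheme -/
noncomputable def dsch (S : Scheme) (encB decB : List Bool → List Bool) : Scheme where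
  pk := S.pk
  sk := S.sk
  enc := encB
  dec := decB
  g := S.g
  e := S.e
  len := 2 * S.len + 2

/-- what the algorithms of the new scheme compute -/
def SpD (τ : Fin 3) (S : Scheme) (encB decB : List Bool → List Bool) : Prop :=
  (∀ n pk b r, encB (c4 (ones n) pk [b] r) =
    fit (S.len.eval n) (S.enc (c4 (ones n) pk [b] r)) ++
      (cpl (fit (S.len.eval n) (S.enc (c4 (ones n) pk [b] r))) ++ [false, true])) ∧
  ∀ n sk u, decB (c3 (ones n) sk u) = [decD τ S n sk u]

/-- the algorithms of the new scheme -/
def S_DT : Prop := ∀ (τ : Fin 3) (S : Scheme), PolyTime S.enc → PolyTime S.dec →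
  ∃ encB decB : List Bool → List Bool, PolyTime encB ∧ PolyTime decB ∧ SpD τ S encB decB

/-- the circuits of the new scheme -/
def S_DC : Prop := ∀ (B : Set BFun) (τ : Fin 3) (S : Scheme) (encB decB : List Bool → List Bool),
  Op3 B (Gm τ) → PolyTime S.sk → PolyTime S.dec → SpD τ S encB decB →
  DecOver B (dsch S encB decB)

/-- the new scheme is correct and secure -/
def S_DS : Prop := ∀ (τ : Fin 3) (S : Scheme) (encB decB : List Bool → List Bool),
  PolyTime encB → PolyTime decB → SpD τ S encB decB → IsPke S → IsPke (dsch S encB decB)

/-- no decryption over affine gates -/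
def S_DNA : Prop := ∀ (B : Set BFun) (S : Scheme), B ⊆ Aff → IsPke S → ¬ DecOver B S

/-- no decryption over conjunctions -/
def S_DNC : Prop := ∀ (B : Set BFun) (S : Scheme), B ⊆ Conj → IsPke S → ¬ DecOver B S

/-- no decryption over disjunctions -/
def S_DND : Prop := ∀ (B : Set BFun) (S : Scheme), B ⊆ Disj → IsPke S → ¬ DecOver B S

/-- exchangeability: among `m + 1` independent samples at most `D` are bad on average -/
def S_EXC : Prop := ∀ (Ω : Type) [Fintype Ω] [Nonempty Ω] (m D : ℕ)
  (p : Ω → (Fin m → Ω) → Bool),
  (∀ z : Fin (m + 1) → Ω,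
    (Finset.univ.filter fun i => p (z i) (fun j => z (i.succAbove j)) = true).card ≤ D) →
  pr (fun w : Ω × (Fin m → Ω) => p w.1 w.2) ≤ (D : ℝ) / (m + 1)

end Pool.Agent.Y586.OD
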